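import Pool.Agent.H74.TSD.Targets

set_option autoImplicit false

open MeasureTheory Set Metric Filter
open scoped ENNReal Pointwise Topology

namespace Pool.Agent.H19.TSD

open Pool.Agent.H74.TSD Pool.Agent.H73.TS

theorem pf_A4 : T_A4 := by
  intro Z C t hZ hZc hC hCc _ _
  have c1 : IsClosed {x : ℝ × ℝ | x.2 ≤ t} := isClosed_le continuous_snd continuous_const
  have c2 : IsClosed {x : ℝ × ℝ | t ≤ x.2} := isClosed_le continuous_const continuous_snd
  have h1 : IsCompact (Z ∩ {x | x.2 ≤ t} + C) := (hZ.inter_right c1).add hC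
  have h2 : IsCompact (Z ∩ {x | t ≤ x.2} + C) := (hZ.inter_right c2).add hC
  have hu : (Z ∩ {x | x.2 ≤ t} + C) ∪ (Z ∩ {x | t ≤ x.2} + C) = Z + C := by
    rw [← Set.union_add, ← Set.inter_union_distrib_left]
    congr 1
    ext x
    simp only [Set.mem_inter_iff, Set.mem_union, Set.mem_setOf_eq]
    constructor
    · exact fun h => h.1
    · exact fun h => ⟨h, le_total _ _⟩
  have hi : (Z ∩ {x | x.2 ≤ t} + C) ∩ (Z ∩ {x | t ≤ x.2} + C) = Z ∩ {x | x.2 = t} + C := by
    ext x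
    constructor
    · rintro ⟨⟨z1, ⟨hz1, ht1⟩, d1, hd1, e1⟩, ⟨z2, ⟨hz2, ht2⟩, d2, hd2, e2⟩⟩
      simp only [Set.mem_setOf_eq] at ht1 ht2
      have key : ∃ l : ℝ, 0 ≤ l ∧ l ≤ 1 ∧ (1 - l) * z1.2 + l * z2.2 = t := by
        rcases eq_or_lt_of_le (ht1.trans ht2) with h | h
        · refine ⟨0, le_refl _, zero_le_one, ?_⟩
          have : z1.2 = t := le_antisymm ht1 (h ▸ ht2)
          rw [this]; ring
        · have hp : 0 < z2.2 - z1.2 := sub_pos.mpr h
          refine ⟨(t - z1.2) / (z2.2 - z1.2), div_nonneg (by linarith) hp.le,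
            (div_le_one hp).mpr (by linarith), ?_⟩
          field_simp
          ring
      obtain ⟨l, hl0, hl1, hl⟩ := key
      refine ⟨(1 - l) • z1 + l • z2, ⟨hZc hz1 hz2 (by linarith) hl0 (by ring), ?_⟩,
        (1 - l) • d1 + l • d2, hCc hd1 hd2 (by linarith) hl0 (by ring), ?_⟩
      · simp only [Set.mem_setOf_eq, Prod.snd_add, Prod.smul_snd, smul_eq_mul]
        exact hl
      · have : ((1 - l) • z1 + l • z2) + ((1 - l) • d1 + l • d2) =
            (1 - l) • (z1 + d1) + l • (z2 + d2) := by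
          simp only [smul_add]; abel
        simp only at e1 e2 ⊢
        rw [this, e1, e2, ← add_smul]
        simp
    · rintro ⟨z, ⟨hz, ht⟩, d, hd, e⟩
      simp only [Set.mem_setOf_eq] at ht
      exact ⟨⟨z, ⟨hz, ht.le⟩, d, hd, e⟩, ⟨z, ⟨hz, ht.ge⟩, d, hd, e⟩⟩
  have hm := measure_union_add_inter (μ := (volume : Measure (ℝ × ℝ)))
    (Z ∩ {x | x.2 ≤ t} + C) h2.measurableSet
  rw [hu, hi] at hm
  have f1 := h1.measure_lt_top (μ := (volume : Measure (ℝ × ℝ)))
  have f2 := h2.measure_lt_top (μ := (volume : Measure (ℝ × ℝ)))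
  have f3 := (hZ.add hC).measure_lt_top (μ := (volume : Measure (ℝ × ℝ)))
  have f4 : (volume : Measure (ℝ × ℝ)) (Z ∩ {x | x.2 = t} + C) < ⊤ := by
    rw [← hi]
    exact lt_of_le_of_lt (measure_mono Set.inter_subset_left) f1
  have := congrArg ENNReal.toReal hm
  rw [ENNReal.toReal_add f3.ne f4.ne, ENNReal.toReal_add f1.ne f2.ne] at this
  exact this

end Pool.Agent.H19.TSD
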