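import Pool.Agent.H74.TSD.Targets

set_option autoImplicit false

open MeasureTheory Set Metric Filter
open scoped ENNReal Pointwise Topology

namespace Pool.Agent.H19.TSD

open Pool.Agent.H74.TSD Pool.Agent.H73.TS

theorem hsg_compact (p l t : ℝ) : IsCompact (hsg p l t) := by
  have : hsg p l t = Set.Icc p (p + l) ×ˢ {t} := by
    ext x
    simp only [hsg, Set.mem_setOf_eq, Set.mem_prod, Set.mem_Icc, Set.mem_singleton_iff, and_assoc]
  rw [this]
  exact isCompact_Icc.prod isCompact_singleton

theorem line_null (t : ℝ) : (volume : Measure (ℝ × ℝ)) {x | x.2 = t} = 0 := by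
  have : {x : ℝ × ℝ | x.2 = t} = Set.univ ×ˢ {t} := by
    ext x; simp
  rw [this, Measure.volume_eq_prod, Measure.prod_prod]
  simp

theorem pf_A5 : T_A5 := by
  intro C p l t hC hs hl
  set D : Set (ℝ × ℝ) := hsg p l t + C with hD
  have hDc : IsCompact D := (hsg_compact p l t).add hC
  -- the reflection
  let q : ℝ × ℝ := (2 * p + l, 2 * t)
  have hr : ∀ x ∈ D, q - x ∈ D := by
    rintro x ⟨u, hu, c, hc, rfl⟩
    obtain ⟨h1, h2, h3⟩ := hu
    refine ⟨q - u, ⟨?_, ?_, ?_⟩, -c, hs c hc, ?_⟩
    · simp only [q, Prod.fst_sub]; linarith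
    · simp only [q, Prod.fst_sub]; linarith
    · simp only [q, Prod.snd_sub]; linarith
    · simp only; abel
  have himg : D ∩ {x | x.2 < t} = (fun x => q - x) ⁻¹' (D ∩ {x | t < x.2}) := by
    ext x
    simp only [Set.mem_inter_iff, Set.mem_setOf_eq, Set.mem_preimage]
    constructor
    · rintro ⟨h1, h2⟩
      refine ⟨hr x h1, ?_⟩
      simp only [q, Prod.snd_sub]; linarith
    · rintro ⟨h1, h2⟩
      refine ⟨?_, ?_⟩
      · have := hr _ h1
        simpa using this
      · simp only [q, Prod.snd_sub] at h2; linarith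
  have heq : (volume : Measure (ℝ × ℝ)) (D ∩ {x | x.2 < t}) = volume (D ∩ {x | t < x.2}) := by
    rw [himg]
    exact (Measure.measurePreserving_sub_left (volume : Measure (ℝ × ℝ)) q).measure_preimage
      ((hDc.measurableSet.inter (measurableSet_lt measurable_const
        measurable_snd)).nullMeasurableSet)
  have hfin := hDc.measure_lt_top (μ := (volume : Measure (ℝ × ℝ)))
  have f1 : (volume : Measure (ℝ × ℝ)) (D ∩ {x | x.2 < t}) < ⊤ :=
    lt_of_le_of_lt (measure_mono Set.inter_subset_left) hfin
  have hm1 : MeasurableSet {x : ℝ × ℝ | x.2 < t} := measurableSet_lt measurable_snd measurable_const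
  have hsplit := measure_inter_add_diff (μ := (volume : Measure (ℝ × ℝ))) D hm1
  have hrest : (volume : Measure (ℝ × ℝ)) (D \ {x | x.2 < t}) = volume (D ∩ {x | t < x.2}) := by
    apply le_antisymm
    · calc (volume : Measure (ℝ × ℝ)) (D \ {x | x.2 < t})
          ≤ volume ((D ∩ {x | t < x.2}) ∪ {x | x.2 = t}) := by
            apply measure_mono
            rintro x ⟨h1, h2⟩
            simp only [Set.mem_setOf_eq, not_lt] at h2
            rcases eq_or_lt_of_le h2 with h | h
            · exact Or.inr h.symm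
            · exact Or.inl ⟨h1, h⟩
        _ ≤ volume (D ∩ {x | t < x.2}) + volume {x : ℝ × ℝ | x.2 = t} := measure_union_le _ _
        _ = volume (D ∩ {x | t < x.2}) := by rw [line_null, add_zero]
    · apply measure_mono
      rintro x ⟨h1, h2⟩
      simp only [Set.mem_setOf_eq] at h2
      exact ⟨h1, by simp only [Set.mem_setOf_eq, not_lt]; exact h2.le⟩
  rw [hrest, ← heq] at hsplit
  have := congrArg ENNReal.toReal hsplit
  rw [ENNReal.toReal_add f1.ne f1.ne] at this
  have h2 : ar (D ∩ {x | x.2 < t}) = ar D / 2 := by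
    simp only [ar]; linarith
  refine ⟨h2, ?_⟩
  rw [← h2]
  simp only [ar, heq]

end Pool.Agent.H19.TSD
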