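import Pool.Agent.H74.TSD.Targets

set_option autoImplicit false

open MeasureTheory Set Metric Filter
open scoped ENNReal Pointwise Topology

namespace Pool.Agent.H19.TSD

open Pool.Agent.H74.TSD Pool.Agent.H73.TS

theorem pf_A8 (h : T_A7) (hl : T_LM) : T_A8 := by
  intro Z C p t κ hp hZ hZc hC hCc hs hw hκ hr h1 h2
  set n : ℝ := p.1 ^ 2 + p.2 ^ 2 with hn
  have hn0 : 0 < n := by
    rcases (sq_nonneg p.1).lt_or_eq with h | h
    · have := sq_nonneg p.2; linarith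
    · rcases (sq_nonneg p.2).lt_or_eq with h' | h'
      · linarith
      · exact absurd (Prod.ext (pow_eq_zero_iff (two_ne_zero) |>.mp h.symm)
          (pow_eq_zero_iff (two_ne_zero) |>.mp h'.symm)) hp
  let L : (ℝ × ℝ) →ₗ[ℝ] (ℝ × ℝ) :=
    { toFun := fun x => (p.2 / n * x.1 + -p.1 / n * x.2, p.1 * x.1 + p.2 * x.2)
      map_add' := by
        intro x y
        ext
        · simp only [Prod.fst_add, Prod.snd_add]; ring
        · simp only [Prod.fst_add, Prod.snd_add]; ring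
      map_smul' := by
        intro a x
        ext
        · simp only [Prod.smul_fst, Prod.smul_snd, smul_eq_mul, RingHom.id_apply]; ring
        · simp only [Prod.smul_fst, Prod.smul_snd, smul_eq_mul, RingHom.id_apply]; ring }
  have hL : ∀ X : Set (ℝ × ℝ), ar (L '' X) = ar X := by
    intro X
    have := hl (p.2 / n) (-p.1 / n) p.1 p.2 X
    have e : |p.2 / n * p.2 - -p.1 / n * p.1| = 1 := by
      have : p.2 / n * p.2 - -p.1 / n * p.1 = 1 := by
        rw [show p.2 / n * p.2 - -p.1 / n * p.1 = (p.1 ^ 2 + p.2 ^ 2) / n by ring, ← hn]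
        exact div_self hn0.ne'
      rw [this, abs_one]
    rw [e, one_mul] at this
    exact this
  have hL2 : ∀ x, (L x).2 = ev p x := fun x => rfl
  have hLc : Continuous L := by
    show Continuous (fun x : ℝ × ℝ => (p.2 / n * x.1 + -p.1 / n * x.2, p.1 * x.1 + p.2 * x.2))
    fun_prop
  have hadd : ∀ X Y : Set (ℝ × ℝ), L '' (X + Y) = L '' X + L '' Y := fun X Y => Set.image_add L
  have hle : ∀ s : ℝ, L '' (Z ∩ {x | ev p x ≤ s}) = L '' Z ∩ {x | x.2 ≤ s} := by
    intro s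
    ext y
    constructor
    · rintro ⟨x, ⟨hx, hxs⟩, rfl⟩
      exact ⟨⟨x, hx, rfl⟩, hxs⟩
    · rintro ⟨⟨x, hx, rfl⟩, hxs⟩
      exact ⟨x, ⟨hx, hxs⟩, rfl⟩
  have hge : ∀ s : ℝ, L '' (Z ∩ {x | s ≤ ev p x}) = L '' Z ∩ {x | s ≤ x.2} := by
    intro s
    ext y
    constructor
    · rintro ⟨x, ⟨hx, hxs⟩, rfl⟩
      exact ⟨⟨x, hx, rfl⟩, hxs⟩
    · rintro ⟨⟨x, hx, rfl⟩, hxs⟩
      exact ⟨x, ⟨hx, hxs⟩, rfl⟩
  have hkey := h (L '' Z) (L '' C) t κ (hZ.image hLc) (hZc.linear_image L) (hC.image hLc)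
    (hCc.linear_image L)
    (by
      rintro _ ⟨x, hx, rfl⟩
      exact ⟨-x, hs x hx, map_neg L x⟩)
    (by
      rintro _ ⟨x, hx, rfl⟩
      exact hw x hx)
    hκ
    (by
      refine ⟨-(κ • rot p), hs _ hr, ?_⟩
      show (p.2 / n * (-(κ • rot p)).1 + -p.1 / n * (-(κ • rot p)).2,
        p.1 * (-(κ • rot p)).1 + p.2 * (-(κ • rot p)).2) = (κ, 0)
      simp only [rot, Prod.fst_neg, Prod.snd_neg, Prod.smul_fst, Prod.smul_snd, smul_eq_mul]
      ext
      · show p.2 / n * -(κ * -p.2) + -p.1 / n * -(κ * p.1) = κ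
        rw [show p.2 / n * -(κ * -p.2) + -p.1 / n * -(κ * p.1) =
          κ * ((p.1 ^ 2 + p.2 ^ 2) / n) by ring, ← hn, div_self hn0.ne', mul_one]
      · show p.1 * -(κ * -p.2) + p.2 * -(κ * p.1) = 0
        ring)
    (by
      rw [← hle]; exact h1.image L)
    (by
      rw [← hge]; exact h2.image L)
  rw [← hle, ← hge, ← hadd, ← hadd, ← hadd, hL, hL, hL, hL] at hkey
  exact hkey

end Pool.Agent.H19.TSD
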