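import Pool.Agent.H74.TSD.Targets

set_option autoImplicit false

open MeasureTheory Set Metric Filter
open scoped ENNReal Pointwise Topology

namespace Pool.Agent.H19.TSD

open Pool.Agent.H74.TSD Pool.Agent.H73.TS

theorem pf_LM : T_LM := by
  intro a b c e X
  have h := Measure.addHaar_image_linearMap (volume : Measure (ℝ × ℝ))
    (Matrix.toLin (Module.Basis.finTwoProd ℝ) (Module.Basis.finTwoProd ℝ) !![a, b; c, e]) X
  have hf : (fun x : ℝ × ℝ => (a * x.1 + b * x.2, c * x.1 + e * x.2)) =
      ⇑(Matrix.toLin (Module.Basis.finTwoProd ℝ) (Module.Basis.finTwoProd ℝ)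
        !![a, b; c, e]) := by
    funext x
    rw [Matrix.toLin_finTwoProd_apply]
  rw [hf, ar, h, LinearMap.det_toLin, Matrix.det_fin_two_of, ENNReal.toReal_mul,
    ENNReal.toReal_ofReal (abs_nonneg _), ar]

end Pool.Agent.H19.TSD
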